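import Mathlib

/-!
# Elementary bounds for the sum of the reciprocals of the primes
-/

open Finset

namespace Pool.Agent.Helper45_DivisorSieve

lemma sum_inv_mul_pred_le (N : ℕ) :
    ∑ p ∈ N.primesBelow, (1 : ℝ) / (p * (p - 1)) ≤ 1 := by
  have h1 : ∑ p ∈ N.primesBelow, (1 : ℝ) / (p * (p - 1))
      ≤ ∑ k ∈ Ico 2 (N + 2), (1 : ℝ) / (k * (k - 1)) := by
    apply sum_le_sum_of_subset_of_nonneg
    · intro p hp
      rw [Nat.mem_primesBelow] at hp
      rw [mem_Ico]
      exact ⟨hp.2.two_le, by omega⟩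
    · intro k hk _
      rw [mem_Ico] at hk
      have : (2 : ℝ) ≤ k := by exact_mod_cast hk.1
      apply div_nonneg zero_le_one
      nlinarith
  have h2 : ∀ M : ℕ, ∑ k ∈ Ico 2 (M + 2), (1 : ℝ) / (k * (k - 1)) = 1 - 1 / (M + 1) := by
    intro M
    induction M with
    | zero => simp
    | succ M ih =>
      rw [show M + 1 + 2 = (M + 2) + 1 by ring, sum_Ico_succ_top (by omega), ih]
      push_cast
      have h3 : (M : ℝ) + 1 ≠ 0 := by positivity
      have h4 : (M : ℝ) + 2 ≠ 0 := by positivity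
      have h5 : (M : ℝ) + 1 + 1 ≠ 0 := by positivity
      have h6 : (M : ℝ) + 2 - 1 ≠ 0 := by
        have : (M : ℝ) + 2 - 1 = M + 1 := by ring
        rw [this]; exact h3
      field_simp
      ring
  rw [h2] at h1
  have : (0 : ℝ) ≤ 1 / ((N : ℝ) + 1) := by positivity
  linarith

/-- Euler's lower bound: `log log N ≤ ∑_{p < N} 1/p + 1`. -/
lemma log_log_le (N : ℕ) (hN : 3 ≤ N) :
    Real.log (Real.log N) ≤ ∑ p ∈ N.primesBelow, (1 : ℝ) / p + 1 := by
  let f : ℕ →* ℝ :=
    { toFun := fun n => (n : ℝ)⁻¹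
      map_one' := by simp
      map_mul' := fun a b => by push_cast; rw [mul_inv] }
  have hf : ∀ {p : ℕ}, p.Prime → ‖f p‖ < 1 := by
    intro p hp
    have h1 : (1 : ℝ) < p := by exact_mod_cast hp.one_lt
    change ‖(p : ℝ)⁻¹‖ < 1
    rw [norm_inv, Real.norm_natCast]
    exact inv_lt_one_of_one_lt₀ h1
  have hE := EulerProduct.summable_and_hasSum_smoothNumbers_prod_primesBelow_geometric hf N
  have hsum : ∑ i ∈ Icc 1 (N - 1), ((i : ℝ))⁻¹ ≤ ∏ p ∈ N.primesBelow, (1 - f p)⁻¹ := by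
    have h1 := hE.2
    have hinj : Set.InjOn (fun i : ℕ => i) (Icc 1 (N - 1) : Finset ℕ) := fun _ _ _ _ h => h
    have hmem : ∀ i ∈ Icc 1 (N - 1), i ∈ N.smoothNumbers := by
      intro i hi
      rw [mem_Icc] at hi
      exact Nat.mem_smoothNumbers_of_lt (by omega) (by omega)
    let s : Finset N.smoothNumbers := (Icc 1 (N - 1)).attach.map
      ⟨fun i => ⟨i.1, hmem i.1 i.2⟩, fun a b h => by
        apply Subtype.ext
        exact congrArg (fun z : N.smoothNumbers => (z : ℕ)) h⟩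
    have h2 := sum_le_hasSum s (fun m _ => by
      change (0 : ℝ) ≤ ((m : ℕ) : ℝ)⁻¹
      positivity) h1
    have h3 : ∑ m ∈ s, f m = ∑ i ∈ Icc 1 (N - 1), ((i : ℝ))⁻¹ := by
      simp only [s, sum_map]
      exact sum_attach (Icc 1 (N - 1)) (fun i : ℕ => ((i : ℝ))⁻¹)
    rw [← h3]
    exact h2
  have hlog : Real.log N ≤ ∑ i ∈ Icc 1 (N - 1), ((i : ℝ))⁻¹ := by
    have h1 := log_add_one_le_harmonic (N - 1)
    rw [harmonic_eq_sum_Icc] at h1
    push_cast at h1
    have h2 : ((N - 1 + 1 : ℕ) : ℝ) = N := by congr 1; omega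
    have h3 : (((N - 1 : ℕ) : ℝ) + 1) = N := by rw [← h2]; push_cast; ring
    rw [h3] at h1
    exact h1
  have hN1 : (1 : ℝ) < Real.log N := by
    rw [Real.lt_log_iff_exp_lt (by positivity)]
    have : (3 : ℝ) ≤ N := by exact_mod_cast hN
    linarith [Real.exp_one_lt_d9]
  have hmono := Real.log_le_log (by linarith) (hlog.trans hsum)
  refine hmono.trans ?_
  have hpne : ∀ p ∈ N.primesBelow, (1 - f p)⁻¹ ≠ 0 := by
    intro p hp
    have h1 := hf (Nat.prime_of_mem_primesBelow hp)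
    have h2 := le_abs_self (f p)
    rw [Real.norm_eq_abs] at h1
    apply inv_ne_zero
    intro h
    linarith
  rw [Real.log_prod hpne]
  have hterm : ∀ p ∈ N.primesBelow, Real.log ((1 - f p)⁻¹) ≤ (1 : ℝ) / p + 1 / (p * (p - 1)) := by
    intro p hp
    have hp' := Nat.prime_of_mem_primesBelow hp
    have h2 : (2 : ℝ) ≤ p := by exact_mod_cast hp'.two_le
    have h3 : (1 - f p)⁻¹ = (p : ℝ) / (p - 1) := by
      change (1 - (p : ℝ)⁻¹)⁻¹ = _
      have : (p : ℝ) - 1 ≠ 0 := by intro h; linarith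
      have h4 : (1 - (p : ℝ)⁻¹) = (p - 1) / p := by field_simp
      rw [h4, inv_div]
    rw [h3]
    have h5 : (0 : ℝ) < p / (p - 1) := div_pos (by linarith) (by linarith)
    have h6 := Real.log_le_sub_one_of_pos h5
    refine h6.trans (le_of_eq ?_)
    have : (p : ℝ) - 1 ≠ 0 := by intro h; linarith
    field_simp
    ring
  calc ∑ p ∈ N.primesBelow, Real.log ((1 - f p)⁻¹)
      ≤ ∑ p ∈ N.primesBelow, ((1 : ℝ) / p + 1 / (p * (p - 1))) := sum_le_sum hterm
    _ = ∑ p ∈ N.primesBelow, (1 : ℝ) / p + ∑ p ∈ N.primesBelow, (1 : ℝ) / (p * (p - 1)) :=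
        sum_add_distrib
    _ ≤ _ := by linarith [sum_inv_mul_pred_le N]

/-- Chebyshev-type upper bound: `∑_{p ≤ 2^K} 1/p ≤ 5 + 4 log K`. -/
lemma sum_inv_primes_le (K : ℕ) (hK : 1 ≤ K) :
    ∑ p ∈ Nat.primesBelow (2 ^ K + 1), (1 : ℝ) / p ≤ 5 + 4 * Real.log K := by
  have hstep : ∀ K : ℕ, 1 ≤ K → ∑ p ∈ Nat.primesBelow (2 ^ (K + 1) + 1), (1 : ℝ) / p
      ≤ ∑ p ∈ Nat.primesBelow (2 ^ K + 1), (1 : ℝ) / p + 4 / K := by
    intro K hK
    have hKpos : (0 : ℝ) < K := by exact_mod_cast hK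
    have hlog2 : 0 < Real.log 2 := Real.log_pos one_lt_two
    have hsplit : Nat.primesBelow (2 ^ (K + 1) + 1)
        = Nat.primesBelow (2 ^ K + 1) ∪ {p ∈ Nat.primesBelow (2 ^ (K + 1) + 1) | 2 ^ K < p} := by
      ext p
      simp only [mem_union, mem_filter, Nat.mem_primesBelow]
      have : 2 ^ K ≤ 2 ^ (K + 1) := Nat.pow_le_pow_right (by norm_num) (by omega)
      constructor
      · rintro ⟨h1, h2⟩
        by_cases h3 : 2 ^ K < p
        · exact Or.inr ⟨⟨h1, h2⟩, h3⟩
        · exact Or.inl ⟨by omega, h2⟩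
      · rintro (⟨h1, h2⟩ | ⟨h1, h2⟩)
        · exact ⟨by omega, h2⟩
        · exact h1
    have hdisj : Disjoint (Nat.primesBelow (2 ^ K + 1))
        {p ∈ Nat.primesBelow (2 ^ (K + 1) + 1) | 2 ^ K < p} := by
      rw [disjoint_left]
      intro p hp hp'
      rw [Nat.mem_primesBelow] at hp
      rw [mem_filter] at hp'
      omega
    rw [hsplit, sum_union hdisj]
    have hmain : ∑ p ∈ Nat.primesBelow (2 ^ (K + 1) + 1) with 2 ^ K < p, (1 : ℝ) / p
        ≤ ∑ p ∈ Nat.primesBelow (2 ^ (K + 1) + 1) with 2 ^ K < p,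
          Real.log p / (K * Real.log 2 * 2 ^ K) := by
      apply sum_le_sum
      intro p hp
      rw [mem_filter, Nat.mem_primesBelow] at hp
      have h1 : (2 : ℝ) ^ K < p := by exact_mod_cast hp.2
      have h2 : (0 : ℝ) < 2 ^ K := by positivity
      have h3 : (K : ℝ) * Real.log 2 ≤ Real.log p := by
        rw [← Real.log_pow]
        exact Real.log_le_log h2 h1.le
      rw [div_le_div_iff₀ (by linarith) (by positivity)]
      have h4 : 0 < (K : ℝ) * Real.log 2 := by positivity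
      calc 1 * ((K : ℝ) * Real.log 2 * 2 ^ K) = (K * Real.log 2) * 2 ^ K := by ring
        _ ≤ Real.log p * p := by
          apply mul_le_mul h3 h1.le h2.le (by linarith)
    have htheta : ∑ p ∈ Nat.primesBelow (2 ^ (K + 1) + 1) with 2 ^ K < p, Real.log p
        ≤ Real.log 4 * 2 ^ (K + 1) := by
      have h1 := Chebyshev.theta_le_log4_mul_x (x := ((2 ^ (K + 1) : ℕ) : ℝ)) (by positivity)
      rw [Chebyshev.theta_eq_sum_primesLE_log] at h1
      push_cast at h1
      refine le_trans ?_ h1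
      apply sum_le_sum_of_subset_of_nonneg
      · intro p hp
        rw [mem_filter, Nat.mem_primesBelow] at hp
        rw [Nat.mem_primesLE]
        exact ⟨by omega, hp.1.2⟩
      · intro p _ _
        exact Real.log_natCast_nonneg p
    rw [← sum_div] at hmain
    have h4 : Real.log 4 = 2 * Real.log 2 := by
      rw [show (4 : ℝ) = 2 ^ 2 by norm_num, Real.log_pow]; norm_num
    have h5 : (∑ p ∈ Nat.primesBelow (2 ^ (K + 1) + 1) with 2 ^ K < p, Real.log p)
        / (K * Real.log 2 * 2 ^ K) ≤ 4 / K := by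
      rw [div_le_div_iff₀ (by positivity) hKpos]
      calc (∑ p ∈ Nat.primesBelow (2 ^ (K + 1) + 1) with 2 ^ K < p, Real.log p) * K
          ≤ (Real.log 4 * 2 ^ (K + 1)) * K := mul_le_mul_of_nonneg_right htheta hKpos.le
        _ = 4 * (K * Real.log 2 * 2 ^ K) := by rw [h4, pow_succ]; ring
    linarith
  have hind : ∀ K : ℕ, ∑ p ∈ Nat.primesBelow (2 ^ (K + 1) + 1), (1 : ℝ) / p
      ≤ 1 / 2 + 4 * (harmonic K : ℝ) := by
    intro K
    induction K with
    | zero =>
      have : Nat.primesBelow (2 ^ (0 + 1) + 1) = {2} := by decide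
      rw [this]
      simp
    | succ K ih =>
      have h1 := hstep (K + 1) (by omega)
      rw [harmonic_succ]
      push_cast at h1 ⊢
      have h2 : 4 / ((K : ℝ) + 1) = 4 * ((K : ℝ) + 1)⁻¹ := by rw [div_eq_mul_inv]
      linarith
  obtain ⟨M, rfl⟩ : ∃ M, K = M + 1 := ⟨K - 1, by omega⟩
  have h1 := hind M
  rcases Nat.eq_zero_or_pos M with h0 | h0
  · subst h0
    have h3 : (harmonic 0 : ℝ) = 0 := by simp
    rw [h3] at h1
    push_cast
    simp only [zero_add, Real.log_one, mul_zero, add_zero] at h1 ⊢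
    linarith
  · have h2 := harmonic_le_one_add_log M
    have h3 : Real.log M ≤ Real.log ((M + 1 : ℕ) : ℝ) := by
      apply Real.log_le_log (by exact_mod_cast h0)
      push_cast; linarith
    linarith

end Pool.Agent.Helper45_DivisorSieve
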