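import Pool.Agent.Helper45_DivisorSieve.Link
import Pool.Agent.Helper45_DivisorSieve.PrimeSums

/-!
# Assembling the sieve bound
-/

open Finset

namespace Pool.Agent.Helper45_DivisorSieve

open Classical in
/-- The integers `n ∈ [1, X]` with `m + τ(m) ≤ n + T` for all `1 ≤ m < n`. -/
noncomputable def lowSet (X : ℕ) (T : ℝ) : Finset ℕ :=
  {n ∈ Icc 1 X | ∀ m ∈ Ico 1 n, (m : ℝ) + (m.divisors.card : ℝ) ≤ n + T}

lemma mem_lowSet {X : ℕ} {T : ℝ} {n : ℕ} : n ∈ lowSet X T ↔ n ∈ Icc 1 X ∧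
    ∀ m ∈ Ico 1 n, (m : ℝ) + (m.divisors.card : ℝ) ≤ n + T := by
  simp only [lowSet, mem_filter]

lemma pow_div_factorial_le {s : ℝ} {m : ℕ} (hs : 0 ≤ s) (hm : 8 * s ≤ m) :
    s ^ m / m.factorial ≤ Real.exp (-s) := by
  rcases Nat.eq_zero_or_pos m with h0 | h0
  · subst h0
    have : s = 0 := by
      have h1 : 8 * s ≤ 0 := by simpa using hm
      linarith
    subst this
    simp
  have hm' : (0 : ℝ) < m := by exact_mod_cast h0
  have h1 : (m : ℝ) ^ m / m.factorial ≤ Real.exp m := Real.pow_div_factorial_le_exp m hm'.le m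
  have h2 : s ^ m ≤ ((m : ℝ) / 8) ^ m := pow_le_pow_left₀ hs (by linarith) m
  have h8 : Real.exp 2 ≤ 8 := by
    have := Real.exp_one_lt_d9
    have h3 : Real.exp 2 = Real.exp 1 * Real.exp 1 := by rw [← Real.exp_add]; norm_num
    rw [h3]
    have h4 : 0 < Real.exp 1 := Real.exp_pos 1
    nlinarith
  have h9 : (1 / 8 : ℝ) ≤ Real.exp (-2) := by
    rw [Real.exp_neg, one_div]
    exact inv_anti₀ (Real.exp_pos 2) h8
  calc s ^ m / m.factorial ≤ ((m : ℝ) / 8) ^ m / m.factorial :=
        div_le_div_of_nonneg_right h2 (by positivity)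
    _ = (1 / 8) ^ m * ((m : ℝ) ^ m / m.factorial) := by
        rw [div_pow, one_div, inv_pow]; ring
    _ ≤ (Real.exp (-2)) ^ m * Real.exp m := by
        apply mul_le_mul _ h1 (by positivity) (by positivity)
        exact pow_le_pow_left₀ (by norm_num) h9 m
    _ = Real.exp (-m) := by
        rw [← Real.exp_nat_mul, ← Real.exp_add]
        congr 1
        ring
    _ ≤ Real.exp (-s) := by
        apply Real.exp_le_exp.mpr
        linarith

/-- First form of the bound. -/
lemma lowSet_card_le (X J N : ℕ) (T t lam : ℝ) (hT : T ≤ J) (hJ : 1 ≤ J)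
    (ht0 : 0 ≤ t) (ht1 : t < 1) (hlam : Real.exp (-lam) = 1 - t) (k : ℕ)
    (hk : 4 * (t * ∑ p ∈ N.primesBelow with J < p, (J : ℝ) / p) ≤ k) :
    ((lowSet X T).card : ℝ) ≤ J + Real.exp (lam * (J * (Nat.log 2 J + 1) : ℕ)) *
      ((X + 1) * (2 * Real.exp (-(t * ∑ p ∈ N.primesBelow with J < p, (J : ℝ) / p)))
        + (1 + J * ({p ∈ N.primesBelow | J < p}.card : ℝ)) ^ (2 * k)) := by
  classical
  set P : Finset ℕ := {p ∈ N.primesBelow | J < p} with hPdef
  set E : ℕ := J * (Nat.log 2 J + 1) with hE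
  have hP : ∀ p ∈ P, p.Prime ∧ J < p := by
    intro p hp
    rw [hPdef, mem_filter] at hp
    exact ⟨Nat.prime_of_mem_primesBelow hp.1, hp.2⟩
  have hsub : lowSet X T ⊆ Icc 1 J ∪ {n ∈ range (X + 1) | incCount J P n ≤ E} := by
    intro n hn
    rw [mem_lowSet, mem_Icc] at hn
    rw [mem_union, mem_Icc, mem_filter, mem_range]
    by_cases hnJ : n ≤ J
    · exact Or.inl ⟨hn.1.1, hnJ⟩
    · right
      refine ⟨by omega, ?_⟩
      apply incCount_le hP hJ (by omega)
      intro j hj
      rw [mem_Icc] at hj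
      have h1 := hn.2 (n - j) (by rw [mem_Ico]; omega)
      have h2 : ((n - j : ℕ) : ℝ) = (n : ℝ) - j := by
        rw [Nat.cast_sub (by omega)]
      rw [h2] at h1
      have h3 : ((n - j).divisors.card : ℝ) ≤ j + J := by linarith
      have h4 : ((n - j).divisors.card : ℝ) ≤ ((2 * J : ℕ) : ℝ) := by
        have : (j : ℝ) ≤ J := by exact_mod_cast hj.2
        push_cast
        linarith
      exact_mod_cast h4
  have h1 : ((lowSet X T).card : ℝ) ≤ J + (#{n ∈ range (X + 1) | incCount J P n ≤ E} : ℕ) := by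
    have := (card_le_card hsub).trans (card_union_le _ _)
    rw [Nat.card_Icc, Nat.add_sub_cancel] at this
    exact_mod_cast this
  have h2 := sieve J (X + 1) P hP t ht0 ht1.le k E
  set s : ℝ := t * ∑ p ∈ P, (J : ℝ) / p with hs
  have hs0 : 0 ≤ s := mul_nonneg ht0 (sum_nonneg fun p _ => by positivity)
  have h3 : s ^ (2 * k + 1) / (2 * k + 1).factorial ≤ Real.exp (-s) := by
    apply pow_div_factorial_le hs0
    push_cast
    linarith
  have h4 : (1 - t) ^ E = Real.exp (-(lam * E)) := by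
    rw [← hlam, ← Real.exp_nat_mul]
    congr 1
    ring
  rw [h4] at h2
  have h5 : ((#{n ∈ range (X + 1) | incCount J P n ≤ E} : ℕ) : ℝ)
      ≤ Real.exp (lam * E) * ((X + 1) * (2 * Real.exp (-s))
        + (1 + J * (P.card : ℝ)) ^ (2 * k)) := by
    have h6 : ((#{n ∈ range (X + 1) | incCount J P n ≤ E} : ℕ) : ℝ)
        = Real.exp (lam * E) * (((#{n ∈ range (X + 1) | incCount J P n ≤ E} : ℕ) : ℝ)
          * Real.exp (-(lam * E))) := by
      rw [mul_left_comm, ← Real.exp_add]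
      simp
    rw [h6]
    apply mul_le_mul_of_nonneg_left _ (Real.exp_pos _).le
    refine h2.trans ?_
    push_cast
    apply add_le_add _ le_rfl
    apply mul_le_mul_of_nonneg_left _ (by positivity)
    linarith
  linarith

end Pool.Agent.Helper45_DivisorSieve
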