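import Mathlib

/-!
# Truncated inclusion-exclusion inequalities for weights in `[0,1]`
-/

open Finset

set_option linter.unusedSectionVars false
set_option linter.unusedVariables false

namespace Pool.Agent.Helper45_DivisorSieve

variable {ι : Type*} [DecidableEq ι]

/-- Elementary symmetric sum of degree `i` of the weights `y p`, `p ∈ A`. -/
noncomputable def es (A : Finset ι) (y : ι → ℝ) (i : ℕ) : ℝ :=
  ∑ S ∈ A.powersetCard i, ∏ p ∈ S, y p

/-- Truncated alternating sum with `R` terms. -/
noncomputable def alt (A : Finset ι) (y : ι → ℝ) (R : ℕ) : ℝ :=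
  ∑ i ∈ range R, (-1) ^ i * es A y i

@[simp] lemma es_zero (A : Finset ι) (y : ι → ℝ) : es A y 0 = 1 := by
  simp [es]

lemma es_empty_succ (y : ι → ℝ) (i : ℕ) : es ∅ y (i + 1) = 0 := by
  unfold es
  rw [powersetCard_eq_empty.mpr (by simp)]
  simp

lemma es_insert (A : Finset ι) (y : ι → ℝ) {q : ι} (hq : q ∉ A) (i : ℕ) :
    es (insert q A) y (i + 1) = es A y (i + 1) + y q * es A y i := by
  unfold es
  rw [powersetCard_succ_insert hq, sum_union, sum_image]
  · congr 1
    rw [mul_sum]
    apply sum_congr rfl
    intro S hS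
    rw [prod_insert]
    exact fun h => hq ((mem_powersetCard.mp hS).1 h)
  · intro S hS T hT hST
    have h1 : q ∉ S := fun h => hq ((mem_powersetCard.mp hS).1 h)
    have h2 : q ∉ T := fun h => hq ((mem_powersetCard.mp hT).1 h)
    have := congrArg (fun U => U.erase q) hST
    simpa [erase_insert h1, erase_insert h2] using this
  · rw [disjoint_left]
    intro S hS hS'
    rw [mem_image] at hS'
    obtain ⟨T, -, rfl⟩ := hS'
    exact hq ((mem_powersetCard.mp hS).1 (mem_insert_self _ _))

lemma alt_insert (A : Finset ι) (y : ι → ℝ) {q : ι} (hq : q ∉ A) (R : ℕ) :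
    alt (insert q A) y (R + 1) = alt A y (R + 1) - y q * alt A y R := by
  unfold alt
  rw [sum_range_succ', sum_range_succ' _ R, mul_sum]
  simp only [es_insert A y hq, es_zero]
  have : ∑ k ∈ range R, (-1 : ℝ) ^ (k + 1) * (es A y (k + 1) + y q * es A y k)
      = ∑ k ∈ range R, (-1 : ℝ) ^ (k + 1) * es A y (k + 1)
        - ∑ i ∈ range R, y q * ((-1) ^ i * es A y i) := by
    rw [← sum_sub_distrib]
    apply sum_congr rfl
    intro k _
    ring
  rw [this]
  ring

/-- Bonferroni inequalities for weights in `[0,1]`. -/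
lemma bonferroni (A : Finset ι) (y : ι → ℝ) (h0 : ∀ p ∈ A, 0 ≤ y p) (h1 : ∀ p ∈ A, y p ≤ 1) :
    ∀ R : ℕ, (Even R → alt A y R ≤ ∏ p ∈ A, (1 - y p)) ∧
      (Odd R → ∏ p ∈ A, (1 - y p) ≤ alt A y R) := by
  induction A using Finset.induction_on with
  | empty =>
    intro R
    rcases R with _ | R
    · simp [alt]
    · have : alt (∅ : Finset ι) y (R + 1) = 1 := by
        unfold alt
        rw [sum_range_succ']
        simp [es_empty_succ]
      simp [this]
  | insert q A hq ih =>
    have h0' : ∀ p ∈ A, 0 ≤ y p := fun p hp => h0 p (mem_insert_of_mem hp)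
    have h1' : ∀ p ∈ A, y p ≤ 1 := fun p hp => h1 p (mem_insert_of_mem hp)
    have hq0 := h0 q (mem_insert_self _ _)
    have hq1 := h1 q (mem_insert_self _ _)
    have ih' := ih h0' h1'
    have hprod : 0 ≤ ∏ p ∈ A, (1 - y p) := prod_nonneg fun p hp => by linarith [h1' p hp]
    intro R
    rw [prod_insert hq]
    rcases R with _ | R
    · constructor
      · intro _
        simp only [alt, range_zero, sum_empty]
        exact mul_nonneg (by linarith) hprod
      · intro h
        exact absurd h (by decide)
    · rw [alt_insert A y hq]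
      constructor
      · intro h
        have hR : Odd R := by
          rcases Nat.even_or_odd R with h' | h'
          · exact absurd h (by simpa [Nat.even_add_one] using h')
          · exact h'
        have e1 := (ih' (R + 1)).1 h
        have e2 := (ih' R).2 hR
        nlinarith [mul_le_mul_of_nonneg_left e2 hq0]
      · intro h
        have hR : Even R := by
          rcases Nat.even_or_odd R with h' | h'
          · exact h'
          · exact absurd h (by simpa [Nat.odd_add_one, Nat.not_odd_iff_even] using h')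
        have e1 := (ih' (R + 1)).2 h
        have e2 := (ih' R).1 hR
        nlinarith [mul_le_mul_of_nonneg_left e2 hq0]

lemma pow_add_ge {s y : ℝ} (hs : 0 ≤ s) (hy : 0 ≤ y) (i : ℕ) :
    s ^ (i + 1) + (i + 1) * y * s ^ i ≤ (y + s) ^ (i + 1) := by
  induction i with
  | zero => simp; linarith
  | succ i ih =>
    have h1 := mul_le_mul_of_nonneg_left ih (add_nonneg hy hs)
    have h2 : 0 ≤ (i + 1 : ℝ) * y * y * s ^ i := by positivity
    push_cast
    calc s ^ (i + 1 + 1) + (i + 1 + 1 : ℝ) * y * s ^ (i + 1)
        ≤ (y + s) * (s ^ (i + 1) + (i + 1) * y * s ^ i) := by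
          rw [pow_succ s (i + 1), pow_succ s i]; nlinarith
      _ ≤ (y + s) * (y + s) ^ (i + 1) := h1
      _ = (y + s) ^ (i + 1 + 1) := by ring

lemma es_nonneg (A : Finset ι) (y : ι → ℝ) (h0 : ∀ p ∈ A, 0 ≤ y p) (i : ℕ) : 0 ≤ es A y i :=
  sum_nonneg fun S hS => prod_nonneg fun p hp => h0 p ((mem_powersetCard.mp hS).1 hp)

lemma es_le (A : Finset ι) (y : ι → ℝ) (h0 : ∀ p ∈ A, 0 ≤ y p) (i : ℕ) :
    es A y i ≤ (∑ p ∈ A, y p) ^ i / i.factorial := by
  induction A using Finset.induction_on generalizing i with
  | empty =>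
    rcases i with _ | i
    · simp
    · simp [es_empty_succ]
  | insert q A hq ih =>
    have h0' : ∀ p ∈ A, 0 ≤ y p := fun p hp => h0 p (mem_insert_of_mem hp)
    have hq0 := h0 q (mem_insert_self _ _)
    rcases i with _ | i
    · simp
    · rw [es_insert A y hq, sum_insert hq]
      have hs : 0 ≤ ∑ p ∈ A, y p := sum_nonneg h0'
      set s := ∑ p ∈ A, y p with hs'
      have e1 := ih h0' (i + 1)
      have e2 := ih h0' i
      -- Bernoulli-type inequality
      have key : s ^ (i + 1) + (i + 1) * y q * s ^ i ≤ (y q + s) ^ (i + 1) :=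
        pow_add_ge hs hq0 i
      calc es A y (i + 1) + y q * es A y i
          ≤ s ^ (i + 1) / (i + 1).factorial + y q * (s ^ i / i.factorial) := by
            apply add_le_add e1 (mul_le_mul_of_nonneg_left e2 hq0)
        _ = (s ^ (i + 1) + (i + 1) * y q * s ^ i) / (i + 1).factorial := by
            have h1 : (i.factorial : ℝ) ≠ 0 := by positivity
            have h2 : ((i + 1).factorial : ℝ) = (i + 1) * i.factorial := by
              rw [Nat.factorial_succ]; push_cast; ring
            rw [h2]
            have h3 : (i + 1 : ℝ) ≠ 0 := by positivity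
            field_simp
        _ ≤ _ := by
            apply div_le_div_of_nonneg_right key (by positivity)

end Pool.Agent.Helper45_DivisorSieve
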