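import Pool.Agent.Helper45_DivisorSieve.Bonferroni

/-!
# Counting integers by residues: the Brun-type sieve inequality
-/

open Finset

set_option linter.unusedSectionVars false
set_option linter.unusedVariables false

namespace Pool.Agent.Helper45_DivisorSieve

/-- `n` is incident to the prime `p`: the residue of `n` modulo `p` lies in `[1, J]`. -/
def Inc (J n p : ℕ) : Prop := 1 ≤ n % p ∧ n % p ≤ J

instance (J n p : ℕ) : Decidable (Inc J n p) := inferInstanceAs (Decidable (_ ∧ _))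

lemma count_modEq_bound (X Q c : ℕ) (hQ : 0 < Q) :
    |((#{n ∈ range X | n ≡ c [MOD Q]} : ℕ) : ℝ) - (X : ℝ) / Q| ≤ 1 := by
  have h := Nat.count_modEq_card X hQ c
  rw [Nat.count_eq_card_filter_range] at h
  rw [h]
  have hQ' : (0 : ℝ) < Q := by exact_mod_cast hQ
  have h1 : ((X / Q : ℕ) : ℝ) ≤ (X : ℝ) / Q := Nat.cast_div_le
  have h2 : (X : ℝ) / Q < (X / Q : ℕ) + 1 := by
    rw [div_lt_iff₀ hQ']
    have := Nat.lt_div_mul_add hQ (a := X)
    have h3 : X < (X / Q + 1) * Q := by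
      rw [add_mul, one_mul]; exact this
    exact_mod_cast h3
  rw [abs_le]
  split_ifs <;> constructor <;> push_cast <;> linarith

lemma count_aux (J X : ℕ) (S : Finset ℕ) : (∀ p ∈ S, p.Prime ∧ J < p) →
    ∀ Q c : ℕ, 0 < Q → (∀ p ∈ S, Nat.Coprime Q p) →
    |((#{n ∈ range X | n ≡ c [MOD Q] ∧ ∀ p ∈ S, Inc J n p} : ℕ) : ℝ)
      - (X : ℝ) / Q * ∏ p ∈ S, ((J : ℝ) / p)| ≤ (J : ℝ) ^ S.card := by
  induction S using Finset.induction_on with
  | empty =>
    intro _ Q c hQ _
    simpa using count_modEq_bound X Q c hQ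
  | insert q S hq ih =>
    intro hS Q c hQ hcop
    have hS' : ∀ p ∈ S, p.Prime ∧ J < p := fun p hp => hS p (mem_insert_of_mem hp)
    have hqp := (hS q (mem_insert_self _ _)).1
    have hqJ := (hS q (mem_insert_self _ _)).2
    have hQq : Nat.Coprime Q q := hcop q (mem_insert_self _ _)
    -- decompose according to the residue mod `q`
    have hdec : {n ∈ range X | n ≡ c [MOD Q] ∧ ∀ p ∈ insert q S, Inc J n p}
        = (Icc 1 J).biUnion (fun j =>
          {n ∈ range X | n ≡ (Nat.chineseRemainder hQq c j : ℕ) [MOD (Q * q)] ∧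
            ∀ p ∈ S, Inc J n p}) := by
      ext n
      simp only [mem_filter, mem_biUnion, mem_Icc, forall_mem_insert]
      constructor
      · rintro ⟨hn, hnc, hinc, hrest⟩
        refine ⟨n % q, hinc, hn, ?_, hrest⟩
        rw [← Nat.modEq_and_modEq_iff_modEq_mul hQq]
        refine ⟨hnc.trans (Nat.chineseRemainder hQq c (n % q)).2.1.symm, ?_⟩
        exact (Nat.mod_modEq n q).symm.trans (Nat.chineseRemainder hQq c (n % q)).2.2.symm
      · rintro ⟨j, hj, hn, hnc, hrest⟩
        rw [← Nat.modEq_and_modEq_iff_modEq_mul hQq] at hnc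
        refine ⟨hn, hnc.1.trans (Nat.chineseRemainder hQq c j).2.1, ?_, hrest⟩
        have h1 : n ≡ j [MOD q] := hnc.2.trans (Nat.chineseRemainder hQq c j).2.2
        have h2 : n % q = j := by
          have h3 : n % q = j % q := h1
          rw [h3, Nat.mod_eq_of_lt (by omega)]
        unfold Inc
        rw [h2]
        exact hj
    have hdisj : Set.PairwiseDisjoint (Icc 1 J : Set ℕ) (fun j =>
          {n ∈ range X | n ≡ (Nat.chineseRemainder hQq c j : ℕ) [MOD (Q * q)] ∧
            ∀ p ∈ S, Inc J n p}) := by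
      intro j hj j' hj' hne
      rw [Function.onFun, disjoint_left]
      intro n hn hn'
      apply hne
      rw [mem_filter] at hn hn'
      have e1 := (Nat.modEq_and_modEq_iff_modEq_mul hQq).mpr hn.2.1
      have e2 := (Nat.modEq_and_modEq_iff_modEq_mul hQq).mpr hn'.2.1
      have h1 : n ≡ j [MOD q] := e1.2.trans (Nat.chineseRemainder hQq c j).2.2
      have h2 : n ≡ j' [MOD q] := e2.2.trans (Nat.chineseRemainder hQq c j').2.2
      have h3 : j % q = j' % q := h1.symm.trans h2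
      simp only [coe_Icc, Set.mem_Icc] at hj hj'
      rwa [Nat.mod_eq_of_lt (by omega), Nat.mod_eq_of_lt (by omega)] at h3
    rw [hdec, card_biUnion hdisj, prod_insert hq, card_insert_of_notMem hq]
    push_cast
    have hqpos : (0 : ℝ) < q := by exact_mod_cast hqp.pos
    have hQpos : (0 : ℝ) < Q := by exact_mod_cast hQ
    have hmain : (X : ℝ) / Q * ((J : ℝ) / q * ∏ p ∈ S, ((J : ℝ) / p))
        = ∑ j ∈ Icc 1 J, (X : ℝ) / ((Q * q : ℕ) : ℝ) * ∏ p ∈ S, ((J : ℝ) / p) := by
      rw [sum_const, Nat.card_Icc, nsmul_eq_mul, Nat.add_sub_cancel]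
      push_cast
      field_simp
    rw [hmain, ← sum_sub_distrib]
    refine (abs_sum_le_sum_abs _ _).trans ?_
    calc ∑ j ∈ Icc 1 J, |((#{n ∈ range X |
            n ≡ (Nat.chineseRemainder hQq c j : ℕ) [MOD (Q * q)] ∧ ∀ p ∈ S, Inc J n p} : ℕ) : ℝ)
              - (X : ℝ) / ((Q * q : ℕ) : ℝ) * ∏ p ∈ S, ((J : ℝ) / p)|
        ≤ ∑ j ∈ Icc 1 J, (J : ℝ) ^ S.card := by
          apply sum_le_sum
          intro j _
          apply ih hS' (Q * q) _ (Nat.mul_pos hQ hqp.pos)
          intro p hp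
          apply Nat.Coprime.mul_left (hcop p (mem_insert_of_mem hp))
          rw [Nat.coprime_primes hqp (hS' p hp).1]
          rintro rfl
          exact hq hp
      _ = (J : ℝ) ^ (S.card + 1) := by
          rw [sum_const, Nat.card_Icc, nsmul_eq_mul, Nat.add_sub_cancel, pow_succ]
          ring

/-- The number of `n < X` incident to all primes of `S`. -/
lemma count_inc (J X : ℕ) (S : Finset ℕ) (hS : ∀ p ∈ S, p.Prime ∧ J < p) :
    |((#{n ∈ range X | ∀ p ∈ S, Inc J n p} : ℕ) : ℝ) - (X : ℝ) * ∏ p ∈ S, ((J : ℝ) / p)|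
      ≤ (J : ℝ) ^ S.card := by
  have h := count_aux J X S hS 1 0 one_pos (fun p _ => Nat.coprime_one_left p)
  simpa [Nat.modEq_one] using h

/-- Number of primes of `P` incident to `n`. -/
def incCount (J : ℕ) (P : Finset ℕ) (n : ℕ) : ℕ := #{p ∈ P | Inc J n p}

/-- The sieve inequality. -/
lemma sieve (J X : ℕ) (P : Finset ℕ) (hP : ∀ p ∈ P, p.Prime ∧ J < p) (t : ℝ) (ht0 : 0 ≤ t)
    (ht1 : t ≤ 1) (k E : ℕ) :
    ((#{n ∈ range X | incCount J P n ≤ E} : ℕ) : ℝ) * (1 - t) ^ E ≤
      X * (Real.exp (-(t * ∑ p ∈ P, (J : ℝ) / p))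
        + (t * ∑ p ∈ P, (J : ℝ) / p) ^ (2 * k + 1) / (2 * k + 1).factorial)
      + (1 + J * P.card) ^ (2 * k) := by
  classical
  set y : ℕ → ℕ → ℝ := fun n p => if Inc J n p then t else 0 with hy
  set w : ℕ → ℝ := fun p => t * ((J : ℝ) / p) with hw
  have hy0 : ∀ n p, 0 ≤ y n p := by
    intro n p; simp only [hy]; split_ifs <;> linarith
  have hy1 : ∀ n p, y n p ≤ 1 := by
    intro n p; simp only [hy]; split_ifs <;> linarith
  have hJp : ∀ p ∈ P, 0 ≤ (J : ℝ) / p ∧ (J : ℝ) / p ≤ 1 := by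
    intro p hp
    have h1 : (J : ℝ) < p := by exact_mod_cast (hP p hp).2
    have h2 : (0 : ℝ) ≤ J := Nat.cast_nonneg _
    exact ⟨by positivity, by rw [div_le_one (by linarith)]; exact h1.le⟩
  have hw0 : ∀ p ∈ P, 0 ≤ w p := fun p hp => mul_nonneg ht0 (hJp p hp).1
  have hw1 : ∀ p ∈ P, w p ≤ 1 := fun p hp => by
    have := hJp p hp
    simp only [hw]
    nlinarith
  -- Step 1: lower bound of the weighted count
  have step1 : ((#{n ∈ range X | incCount J P n ≤ E} : ℕ) : ℝ) * (1 - t) ^ E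
      ≤ ∑ n ∈ range X, ∏ p ∈ P, (1 - y n p) := by
    have hprod : ∀ n, ∏ p ∈ P, (1 - y n p) = (1 - t) ^ (incCount J P n) := by
      intro n
      have : ∀ p, (1 - y n p) = if Inc J n p then (1 - t) else 1 := by
        intro p; simp only [hy]; split_ifs <;> ring
      simp only [this]
      rw [prod_ite]
      simp [incCount]
    calc ((#{n ∈ range X | incCount J P n ≤ E} : ℕ) : ℝ) * (1 - t) ^ E
        = ∑ n ∈ range X with incCount J P n ≤ E, (1 - t) ^ E := by
          rw [sum_const, nsmul_eq_mul]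
      _ ≤ ∑ n ∈ range X with incCount J P n ≤ E, ∏ p ∈ P, (1 - y n p) := by
          apply sum_le_sum
          intro n hn
          rw [hprod]
          exact pow_le_pow_of_le_one (by linarith) (by linarith) (mem_filter.mp hn).2
      _ ≤ ∑ n ∈ range X, ∏ p ∈ P, (1 - y n p) := by
          apply sum_le_sum_of_subset_of_nonneg (filter_subset _ _)
          intro n _ _
          rw [hprod]
          exact pow_nonneg (by linarith) _
  -- Step 2: Bonferroni for every n
  have step2 : ∑ n ∈ range X, ∏ p ∈ P, (1 - y n p)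
      ≤ ∑ n ∈ range X, alt P (y n) (2 * k + 1) := by
    apply sum_le_sum
    intro n _
    exact (bonferroni P (y n) (fun p _ => hy0 n p) (fun p _ => hy1 n p) (2 * k + 1)).2
      ⟨k, rfl⟩
  -- Step 3: evaluate
  have step3 : ∑ n ∈ range X, alt P (y n) (2 * k + 1)
      = ∑ i ∈ range (2 * k + 1), (-1) ^ i * ∑ S ∈ P.powersetCard i,
          t ^ i * ((#{n ∈ range X | ∀ p ∈ S, Inc J n p} : ℕ) : ℝ) := by
    unfold alt es
    rw [sum_comm]
    apply sum_congr rfl
    intro i _
    rw [← mul_sum, sum_comm]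
    congr 1
    apply sum_congr rfl
    intro S hS
    have hcard := (mem_powersetCard.mp hS).2
    rw [← sum_boole, mul_sum]
    apply sum_congr rfl
    intro n _
    simp only [hy]
    by_cases h : ∀ p ∈ S, Inc J n p
    · rw [if_pos h, mul_one, ← hcard]
      rw [prod_congr rfl (fun p hp => if_pos (h p hp))]
      simp
    · rw [if_neg h, mul_zero]
      push Not at h
      obtain ⟨p, hp, hnp⟩ := h
      exact prod_eq_zero hp (if_neg hnp)
  -- Step 4: replace counts by main terms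
  have step4 : ∑ i ∈ range (2 * k + 1), (-1) ^ i * ∑ S ∈ P.powersetCard i,
          t ^ i * ((#{n ∈ range X | ∀ p ∈ S, Inc J n p} : ℕ) : ℝ)
      ≤ X * alt P w (2 * k + 1) + ∑ i ∈ range (2 * k + 1), ((J * P.card : ℝ)) ^ i := by
    unfold alt es
    rw [mul_sum, ← sum_add_distrib]
    apply sum_le_sum
    intro i _
    have hterm : ∀ S ∈ P.powersetCard i, |t ^ i * ((#{n ∈ range X | ∀ p ∈ S, Inc J n p} : ℕ) : ℝ)
        - X * ∏ p ∈ S, w p| ≤ (J : ℝ) ^ i := by
      intro S hS
      have hsub := (mem_powersetCard.mp hS).1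
      have hcard := (mem_powersetCard.mp hS).2
      have h1 := count_inc J X S (fun p hp => hP p (hsub hp))
      rw [hcard] at h1
      have h2 : ∏ p ∈ S, w p = t ^ i * ∏ p ∈ S, ((J : ℝ) / p) := by
        simp only [hw]
        rw [prod_mul_distrib, prod_const, hcard]
      have h3 : t ^ i * ((#{n ∈ range X | ∀ p ∈ S, Inc J n p} : ℕ) : ℝ) - X * ∏ p ∈ S, w p
          = t ^ i * (((#{n ∈ range X | ∀ p ∈ S, Inc J n p} : ℕ) : ℝ)
            - X * ∏ p ∈ S, ((J : ℝ) / p)) := by rw [h2]; ring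
      rw [h3, abs_mul, abs_of_nonneg (pow_nonneg ht0 i)]
      calc t ^ i * _ ≤ 1 * (J : ℝ) ^ i := by
            apply mul_le_mul (pow_le_one₀ ht0 ht1) h1 (abs_nonneg _) zero_le_one
        _ = _ := one_mul _
    have hsum : |∑ S ∈ P.powersetCard i, (t ^ i * ((#{n ∈ range X | ∀ p ∈ S, Inc J n p} : ℕ) : ℝ)
        - X * ∏ p ∈ S, w p)| ≤ (J * P.card : ℝ) ^ i := by
      refine (abs_sum_le_sum_abs _ _).trans ?_
      calc ∑ S ∈ P.powersetCard i, |t ^ i * ((#{n ∈ range X | ∀ p ∈ S, Inc J n p} : ℕ) : ℝ)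
              - X * ∏ p ∈ S, w p|
          ≤ ∑ S ∈ P.powersetCard i, (J : ℝ) ^ i := sum_le_sum hterm
        _ = (P.card.choose i : ℝ) * (J : ℝ) ^ i := by
            rw [sum_const, card_powersetCard, nsmul_eq_mul]
        _ ≤ (P.card : ℝ) ^ i * (J : ℝ) ^ i := by
            apply mul_le_mul_of_nonneg_right _ (by positivity)
            exact_mod_cast Nat.choose_le_pow _ _
        _ = _ := by rw [mul_pow]; ring
    rw [sum_sub_distrib] at hsum
    have hsgn : |(-1 : ℝ) ^ i| = 1 := by rw [abs_pow]; simp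
    have h5 : (-1) ^ i * (∑ S ∈ P.powersetCard i,
          t ^ i * ((#{n ∈ range X | ∀ p ∈ S, Inc J n p} : ℕ) : ℝ)
          - ∑ S ∈ P.powersetCard i, X * ∏ p ∈ S, w p) ≤ (J * P.card : ℝ) ^ i := by
      refine (le_abs_self _).trans ?_
      rw [abs_mul, hsgn, one_mul]
      exact hsum
    have h6 : ∑ S ∈ P.powersetCard i, (X : ℝ) * ∏ p ∈ S, w p
        = X * ∑ S ∈ P.powersetCard i, ∏ p ∈ S, w p := by rw [mul_sum]
    rw [h6] at h5
    nlinarith [h5]
  have step5 : alt P w (2 * k + 1) ≤ Real.exp (-(t * ∑ p ∈ P, (J : ℝ) / p))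
        + (t * ∑ p ∈ P, (J : ℝ) / p) ^ (2 * k + 1) / (2 * k + 1).factorial := by
    have h1 := (bonferroni P w hw0 hw1 (2 * k + 2)).1 ⟨k + 1, by ring⟩
    have h2 : alt P w (2 * k + 2) = alt P w (2 * k + 1) - es P w (2 * k + 1) := by
      unfold alt
      rw [sum_range_succ _ (2 * k + 1)]
      have : (-1 : ℝ) ^ (2 * k + 1) = -1 := by
        rw [pow_succ, pow_mul]; simp
      rw [this]
      ring
    have h3 := es_le P w hw0 (2 * k + 1)
    have h4 : ∑ p ∈ P, w p = t * ∑ p ∈ P, (J : ℝ) / p := by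
      simp only [hw]; rw [mul_sum]
    rw [h4] at h3
    have h5 : ∏ p ∈ P, (1 - w p) ≤ Real.exp (-(t * ∑ p ∈ P, (J : ℝ) / p)) := by
      rw [← h4, ← sum_neg_distrib, Real.exp_sum]
      apply prod_le_prod
      · intro p hp; linarith [hw1 p hp]
      · intro p hp
        have := Real.add_one_le_exp (-(w p))
        linarith
    rw [h2] at h1
    linarith
  have step6 : ∑ i ∈ range (2 * k + 1), ((J * P.card : ℝ)) ^ i ≤ (1 + J * P.card) ^ (2 * k) := by
    rw [add_comm (1 : ℝ), add_pow]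
    apply sum_le_sum
    intro i hi
    have hi' : i ≤ 2 * k := by
      rw [mem_range] at hi; omega
    have h1 : (1 : ℝ) ≤ ((2 * k).choose i : ℝ) := by
      exact_mod_cast Nat.choose_pos hi'
    have h2 : (0 : ℝ) ≤ (J * P.card : ℝ) ^ i := by positivity
    rw [one_pow, mul_one]
    nlinarith
  calc _ ≤ _ := step1
    _ ≤ _ := step2
    _ = _ := step3
    _ ≤ _ := step4
    _ ≤ _ := by
      apply add_le_add _ step6
      exact mul_le_mul_of_nonneg_left step5 (Nat.cast_nonneg _)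

end Pool.Agent.Helper45_DivisorSieve
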