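import Pool.Agent.Helper45_DivisorSieve.Assemble

/-!
# The bound under explicit numerical conditions
-/

open Finset Real

namespace Pool.Agent.Helper45_DivisorSieve

/-- Upper bound for the sum over all primes below `exp Y`. -/
lemma sum_upper (Y : ℝ) (hY : 1 ≤ Y) :
    ∑ p ∈ Nat.primesBelow (⌊Real.exp Y⌋₊ + 1), (1 : ℝ) / p ≤ 5 + 4 * Real.log (3 * Y) := by
  have hlog2 : 0 < Real.log 2 := Real.log_pos one_lt_two
  obtain ⟨K, hK⟩ : ∃ K : ℕ, K = ⌈Y / Real.log 2⌉₊ := ⟨_, rfl⟩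
  have hK1 : Y / Real.log 2 ≤ K := hK ▸ Nat.le_ceil _
  have hK2 : (K : ℝ) < Y / Real.log 2 + 1 := hK ▸ Nat.ceil_lt_add_one (by positivity)
  have hKr : (0 : ℝ) < K := lt_of_lt_of_le (by positivity) hK1
  have hKpos : 1 ≤ K := by exact_mod_cast hKr
  have h2Y : Y / Real.log 2 ≤ 2 * Y := by
    rw [div_le_iff₀ hlog2]
    have : (0.5 : ℝ) < Real.log 2 := by linarith [Real.log_two_gt_d9]
    nlinarith
  have hK3 : (K : ℝ) ≤ 3 * Y := by linarith
  have h1 := sum_inv_primes_le K hKpos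
  have hpow : Real.exp Y ≤ (2 : ℝ) ^ K := by
    rw [← Real.exp_log (show (0 : ℝ) < 2 ^ K by positivity), Real.log_pow]
    apply Real.exp_le_exp.mpr
    rwa [div_le_iff₀ hlog2] at hK1
  have hfloor : ⌊Real.exp Y⌋₊ ≤ 2 ^ K := by
    have h4 : ((⌊Real.exp Y⌋₊ : ℕ) : ℝ) ≤ ((2 ^ K : ℕ) : ℝ) := by
      push_cast
      exact (Nat.floor_le (Real.exp_pos _).le).trans hpow
    exact_mod_cast h4
  have h2 : ∑ p ∈ Nat.primesBelow (⌊Real.exp Y⌋₊ + 1), (1 : ℝ) / p
      ≤ ∑ p ∈ Nat.primesBelow (2 ^ K + 1), (1 : ℝ) / p := by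
    apply sum_le_sum_of_subset_of_nonneg
    · intro p hp
      rw [Nat.mem_primesBelow] at hp
      rw [Nat.mem_primesBelow]
      exact ⟨lt_of_lt_of_le hp.1 (by omega), hp.2⟩
    · intro p _ _; positivity
  have h4 : Real.log K ≤ Real.log (3 * Y) := Real.log_le_log hKr hK3
  linarith

/-- Lower bound for the sum over all primes below `exp Y`. -/
lemma sum_lower (Y : ℝ) (hY : 1 ≤ Y) :
    Real.log Y ≤ ∑ p ∈ Nat.primesBelow (⌊Real.exp Y⌋₊ + 1), (1 : ℝ) / p + 1 := by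
  have hN1 : Real.exp Y < ((⌊Real.exp Y⌋₊ + 1 : ℕ) : ℝ) := by
    push_cast; exact Nat.lt_floor_add_one _
  have hexp : 2 < Real.exp Y := by
    have h1 : Real.exp 1 ≤ Real.exp Y := Real.exp_le_exp.mpr hY
    have h2 : (2 : ℝ) < Real.exp 1 := by linarith [Real.exp_one_gt_d9]
    linarith
  have hN3 : 3 ≤ ⌊Real.exp Y⌋₊ + 1 := by
    have h1 : 2 ≤ ⌊Real.exp Y⌋₊ := Nat.le_floor (by exact_mod_cast hexp.le)
    omega
  refine le_trans ?_ (log_log_le _ hN3)
  apply Real.log_le_log (by linarith)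
  rw [Real.le_log_iff_exp_le (by linarith [Real.exp_pos Y])]
  exact hN1.le

/-- The primes at most `J` contribute little. -/
lemma sum_small (N J : ℕ) : ∑ p ∈ N.primesBelow with ¬ J < p, (1 : ℝ) / p
      ≤ 5 + 4 * Real.log ((Nat.log 2 J + 1 : ℕ) : ℝ) := by
  have h1 := sum_inv_primes_le (Nat.log 2 J + 1) (by omega)
  have hJlt : J < 2 ^ (Nat.log 2 J + 1) := Nat.lt_pow_succ_log_self (by norm_num) J
  refine le_trans ?_ h1
  apply sum_le_sum_of_subset_of_nonneg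
  · intro p hp
    rw [mem_filter, Nat.mem_primesBelow] at hp
    rw [Nat.mem_primesBelow]
    exact ⟨lt_of_le_of_lt (not_lt.mp hp.2) (lt_of_lt_of_le hJlt (by omega)), hp.1.2⟩
  · intro p _ _; positivity

lemma log_twelve_le : Real.log 12 ≤ 3 := by
  rw [Real.log_le_iff_le_exp (by norm_num)]
  have h5 : Real.exp 3 = Real.exp 1 * Real.exp 1 * Real.exp 1 := by
    rw [← Real.exp_add, ← Real.exp_add]; norm_num
  have h6 : (2.7 : ℝ) < Real.exp 1 := by linarith [Real.exp_one_gt_d9]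
  rw [h5]
  have h7 : (2.7 : ℝ) * 2.7 < Real.exp 1 * Real.exp 1 := by nlinarith
  nlinarith

lemma log_three_le : Real.log 3 ≤ 2 := by
  have := Real.log_le_sub_one_of_pos (show (0 : ℝ) < 3 by norm_num)
  linarith

lemma term2_real {X lam E t J S T c1 c2 : ℝ} (hX : 1 ≤ X) (ht0 : 0 ≤ t) (hlam0 : 0 ≤ lam)
    (hE : E ≤ J * c1) (hS : c2 ≤ S) (hJr : 1 ≤ J) (hTJ : T ≤ J) (hA : lam * c1 + 4 ≤ t * c2) :
    Real.exp (lam * E) * ((X + 1) * (2 * Real.exp (-(t * (J * S))))) ≤ X * Real.exp (-T) / 3 := by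
  have h0 : X + 1 ≤ 2 * X := by linarith
  have hlamE : lam * E ≤ lam * (J * c1) := mul_le_mul_of_nonneg_left hE hlam0
  have h2 : t * (J * c2) ≤ t * (J * S) :=
    mul_le_mul_of_nonneg_left (mul_le_mul_of_nonneg_left hS (by linarith)) ht0
  have h3 := mul_le_mul_of_nonneg_left hA (by linarith : (0 : ℝ) ≤ J)
  have h4 := log_twelve_le
  have h1 : lam * E - t * (J * S) + Real.log 12 ≤ -T := by linarith
  have h12 : Real.exp (Real.log 12) = 12 := Real.exp_log (by norm_num)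
  have h6 : Real.exp (-T) = Real.exp (-T) := rfl
  calc Real.exp (lam * E) * ((X + 1) * (2 * Real.exp (-(t * (J * S)))))
      ≤ Real.exp (lam * E) * ((2 * X) * (2 * Real.exp (-(t * (J * S))))) := by
        apply mul_le_mul_of_nonneg_left _ (Real.exp_pos _).le
        apply mul_le_mul_of_nonneg_right h0 (by positivity)
    _ = X * (Real.exp (lam * E - t * (J * S) + Real.log 12)) / 3 := by
        rw [Real.exp_add, h12, sub_eq_add_neg, Real.exp_add]
        ring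
    _ ≤ X * Real.exp (-T) / 3 := by
        have := Real.exp_le_exp.mpr h1
        have h5 := mul_le_mul_of_nonneg_left this (by linarith : (0 : ℝ) ≤ X)
        linarith

lemma third_eq {X L T : ℝ} (hXL : Real.exp L = X) :
    X * Real.exp (-T) / 3 = Real.exp (L - T - Real.log 3) := by
  rw [Real.exp_sub, Real.exp_sub, hXL, Real.exp_log (by norm_num), Real.exp_neg]
  field_simp

lemma term3_real {X L lam E T B w M : ℝ} (k : ℕ) (hXL : Real.exp L = X) (hB0 : 0 ≤ B)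
    (hB : B ≤ Real.exp w) (hw : 0 ≤ w) (hk : ((2 * k : ℕ) : ℝ) ≤ M)
    (hsum : lam * E + M * w + T + 2 ≤ L) :
    Real.exp (lam * E) * B ^ (2 * k) ≤ X * Real.exp (-T) / 3 := by
  have h1 : B ^ (2 * k) ≤ Real.exp (((2 * k : ℕ) : ℝ) * w) := by
    have h0 : Real.exp (((2 * k : ℕ) : ℝ) * w) = (Real.exp w) ^ (2 * k) :=
      Real.exp_nat_mul _ _
    rw [h0]
    exact pow_le_pow_left₀ hB0 hB _
  have h3 : ((2 * k : ℕ) : ℝ) * w ≤ M * w := mul_le_mul_of_nonneg_right hk hw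
  have h4 := log_three_le
  rw [third_eq hXL]
  calc Real.exp (lam * E) * B ^ (2 * k)
      ≤ Real.exp (lam * E) * Real.exp (((2 * k : ℕ) : ℝ) * w) :=
        mul_le_mul_of_nonneg_left h1 (Real.exp_pos _).le
    _ = Real.exp (lam * E + ((2 * k : ℕ) : ℝ) * w) := by rw [Real.exp_add]
    _ ≤ _ := by
        apply Real.exp_le_exp.mpr
        linarith

lemma base_real {T J Pc e : ℝ} (hT : 1 ≤ T) (hJ : J ≤ 2 * T) (_hJ0 : 0 ≤ J) (hP0 : 0 ≤ Pc)
    (hP : Pc ≤ e + 1) (he : 1 ≤ e) : 1 + J * Pc ≤ 5 * T * e := by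
  have h1 : J * Pc ≤ 2 * T * (2 * e) := mul_le_mul hJ (by linarith) hP0 (by linarith)
  have h2 : 1 * 1 ≤ T * e := mul_le_mul hT he (by norm_num) (by linarith)
  linarith

lemma lowSet_card_le_exp (X : ℕ) (a b t lam kap : ℝ) (ha : 0 < a) (hb : 0 < b) (hb1 : b ≤ 1)
    (ht0 : 0 ≤ t) (ht1 : t < 1) (hlam : Real.exp (-lam) = 1 - t) (hlam0 : 0 ≤ lam)
    (hkap : kap = a / Real.log 2) (hX : 1 ≤ X) (hL : 1 ≤ Real.log X)
    (A2 : lam * (kap * Real.log (Real.log X) + 2) + 4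
      ≤ t * (b * Real.log (Real.log X) - 6 - 4 * Real.log (kap * Real.log (Real.log X) + 2)))
    (A3 : lam * (2 * (Real.log X) ^ a * (kap * Real.log (Real.log X) + 2))
      + (16 * (Real.log X) ^ a * (13 + 4 * Real.log (Real.log X)) + 2) * (2 * (Real.log X) ^ b)
      + (Real.log X) ^ a + 2 ≤ Real.log X)
    (A4 : Real.log 5 + a * Real.log (Real.log X) + (Real.log X) ^ b ≤ 2 * (Real.log X) ^ b)
    (A5 : Real.log 6 + a * Real.log (Real.log X) + (Real.log X) ^ a ≤ Real.log X) :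
    ((lowSet X ((Real.log X) ^ a)).card : ℝ) ≤ X * Real.exp (-(Real.log X) ^ a) := by
  obtain ⟨L, hLdef⟩ : ∃ L, L = Real.log X := ⟨_, rfl⟩
  rw [← hLdef] at hL A2 A3 A4 A5 ⊢
  obtain ⟨l, hldef⟩ : ∃ l, l = Real.log L := ⟨_, rfl⟩
  rw [← hldef] at A2 A3 A4 A5
  obtain ⟨T, hTdef⟩ : ∃ T, T = L ^ a := ⟨_, rfl⟩
  rw [← hTdef] at A3 A5 ⊢
  have hL0 : 0 < L := by linarith
  have hl0 : 0 ≤ l := hldef ▸ Real.log_nonneg hL
  have hT1 : 1 ≤ T := hTdef ▸ Real.one_le_rpow hL ha.le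
  have hLb1 : 1 ≤ L ^ b := Real.one_le_rpow hL hb.le
  have hlog2 : 0 < Real.log 2 := Real.log_pos one_lt_two
  have hkap0 : 0 < kap := by rw [hkap]; positivity
  have hXpos : (0 : ℝ) < X := by exact_mod_cast hX
  have hXr : (1 : ℝ) ≤ X := by exact_mod_cast hX
  have hXexp : Real.exp L = X := hLdef ▸ Real.exp_log hXpos
  have hlogT : Real.log T = a * l := by rw [hTdef, hldef]; exact Real.log_rpow hL0 a
  have hexpT : Real.exp (a * l) = T := by rw [← hlogT, Real.exp_log (by linarith)]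
  obtain ⟨J, hJ1, hJ2⟩ : ∃ J : ℕ, T ≤ J ∧ (J : ℝ) < T + 1 :=
    ⟨⌈T⌉₊, Nat.le_ceil T, Nat.ceil_lt_add_one (by linarith)⟩
  have hJ3 : (J : ℝ) ≤ 2 * T := by linarith
  have hJr : (1 : ℝ) ≤ J := by linarith
  have hJpos : 1 ≤ J := by exact_mod_cast hJr
  have hlogJ : Real.log J ≤ Real.log 2 + a * l := by
    rw [← hlogT, ← Real.log_mul (by norm_num) (by linarith)]
    exact Real.log_le_log (by linarith) hJ3
  have hNlog : ((Nat.log 2 J : ℕ) : ℝ) ≤ 1 + kap * l := by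
    have h1 : 2 ^ Nat.log 2 J ≤ J := Nat.pow_log_le_self 2 (by omega)
    have h2 : ((2 : ℝ)) ^ Nat.log 2 J ≤ J := by exact_mod_cast h1
    have h3 := Real.log_le_log (by positivity) h2
    rw [Real.log_pow] at h3
    have h4 : (1 + kap * l) * Real.log 2 = Real.log 2 + a * l := by
      rw [hkap]; field_simp
    have h5 : ((Nat.log 2 J : ℕ) : ℝ) * Real.log 2 ≤ (1 + kap * l) * Real.log 2 := by
      rw [h4]; exact h3.trans hlogJ
    exact le_of_mul_le_mul_right h5 hlog2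
  have hKJr : ((Nat.log 2 J + 1 : ℕ) : ℝ) ≤ kap * l + 2 := by
    push_cast; linarith
  obtain ⟨N, hNdef⟩ : ∃ N : ℕ, N = ⌊Real.exp (L ^ b)⌋₊ + 1 := ⟨_, rfl⟩
  have hN2 : (N : ℝ) ≤ Real.exp (L ^ b) + 1 := by
    rw [hNdef]; push_cast
    have := Nat.floor_le (Real.exp_pos (L ^ b)).le
    linarith
  have hlow : b * l ≤ ∑ p ∈ N.primesBelow, (1 : ℝ) / p + 1 := by
    have h2 : Real.log (L ^ b) = b * l := by rw [hldef]; exact Real.log_rpow hL0 b
    rw [← h2, hNdef]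
    exact sum_lower (L ^ b) hLb1
  have hup : ∑ p ∈ N.primesBelow, (1 : ℝ) / p ≤ 13 + 4 * l := by
    have h1 := sum_upper (L ^ b) hLb1
    rw [← hNdef] at h1
    have h3 : Real.log (3 * L ^ b) ≤ 2 + l := by
      rw [Real.log_mul (by norm_num) (by linarith), Real.log_rpow hL0, ← hldef]
      have h5 := log_three_le
      have h6 : b * l ≤ 1 * l := mul_le_mul_of_nonneg_right hb1 hl0
      linarith
    linarith
  have hsmall : ∑ p ∈ N.primesBelow with ¬ J < p, (1 : ℝ) / p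
      ≤ 5 + 4 * Real.log (kap * l + 2) := by
    have h1 := sum_small N J
    have h3 : Real.log ((Nat.log 2 J + 1 : ℕ) : ℝ) ≤ Real.log (kap * l + 2) := by
      apply Real.log_le_log (by positivity) hKJr
    linarith
  have hsplit := sum_filter_add_sum_filter_not N.primesBelow (fun p => J < p)
    (fun p : ℕ => (1 : ℝ) / p)
  obtain ⟨S, hS⟩ : ∃ S : ℝ, S = ∑ p ∈ N.primesBelow with J < p, (1 : ℝ) / p := ⟨_, rfl⟩
  rw [← hS] at hsplit
  have hS0 : 0 ≤ S := hS ▸ sum_nonneg fun p _ => by positivity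
  have hns : 0 ≤ ∑ p ∈ N.primesBelow with ¬ J < p, (1 : ℝ) / p :=
    sum_nonneg fun p _ => by positivity
  have hSlow : b * l - 6 - 4 * Real.log (kap * l + 2) ≤ S := by linarith
  have hSup : S ≤ 13 + 4 * l := by linarith
  have hmu : ∑ p ∈ N.primesBelow with J < p, (J : ℝ) / p = J * S := by
    rw [hS, mul_sum]
    apply sum_congr rfl
    intro p _
    ring
  have hmuup : (J : ℝ) * S ≤ 2 * T * (13 + 4 * l) := mul_le_mul hJ3 hSup hS0 (by linarith)
  obtain ⟨k, hk1, hk2⟩ : ∃ k : ℕ, 4 * (t * ((J : ℝ) * S)) ≤ k ∧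
      (k : ℝ) < 4 * (t * ((J : ℝ) * S)) + 1 :=
    ⟨⌈4 * (t * ((J : ℝ) * S))⌉₊, Nat.le_ceil _, Nat.ceil_lt_add_one (by positivity)⟩
  have hmain := lowSet_card_le X J N T t lam hJ1 hJpos ht0 ht1 hlam k (by
    rw [hmu]; exact hk1)
  rw [hmu] at hmain
  have hEr : ((J * (Nat.log 2 J + 1) : ℕ) : ℝ) ≤ J * (kap * l + 2) := by
    rw [Nat.cast_mul]
    exact mul_le_mul_of_nonneg_left hKJr (by linarith)
  -- Term 1
  have t1 : (J : ℝ) ≤ X * Real.exp (-T) / 3 := by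
    have h1 : Real.log 6 = Real.log 2 + Real.log 3 := by
      rw [← Real.log_mul (by norm_num) (by norm_num)]; norm_num
    have h3 : (J : ℝ) ≤ Real.exp (Real.log 2 + a * l) := by
      rw [Real.exp_add, Real.exp_log (by norm_num), hexpT]
      exact hJ3
    rw [third_eq hXexp]
    refine h3.trans (Real.exp_le_exp.mpr ?_)
    linarith
  -- Term 2
  have t2 := term2_real (X := X) hXr ht0 hlam0 hEr hSlow hJr hJ1 A2
  -- Term 3
  have hexpLb : 1 ≤ Real.exp (L ^ b) := Real.one_le_exp (by linarith)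
  have hPcard : (({p ∈ N.primesBelow | J < p}.card : ℕ) : ℝ) ≤ Real.exp (L ^ b) + 1 := by
    have h1 : {p ∈ N.primesBelow | J < p}.card ≤ N := by
      calc {p ∈ N.primesBelow | J < p}.card ≤ N.primesBelow.card := card_filter_le _ _
        _ ≤ (range N).card := card_filter_le _ _
        _ = N := card_range N
    exact (Nat.cast_le.mpr h1).trans hN2
  have hbase := base_real hT1 hJ3 (by linarith) (Nat.cast_nonneg _) hPcard hexpLb
  have hbaselog : 1 + (J : ℝ) * (({p ∈ N.primesBelow | J < p}.card : ℕ) : ℝ)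
      ≤ Real.exp (2 * L ^ b) := by
    refine hbase.trans ?_
    have h1 : 5 * T * Real.exp (L ^ b) = Real.exp (Real.log 5 + a * l + L ^ b) := by
      rw [Real.exp_add, Real.exp_add, Real.exp_log (by norm_num), hexpT]
    rw [h1]
    exact Real.exp_le_exp.mpr A4
  have hM : ((2 * k : ℕ) : ℝ) ≤ 16 * T * (13 + 4 * l) + 2 := by
    push_cast
    have h3 : t * (J * S) ≤ 1 * (J * S) := mul_le_mul_of_nonneg_right ht1.le (by positivity)
    linarith
  have hlamE2 : lam * ((J * (Nat.log 2 J + 1) : ℕ) : ℝ) ≤ lam * (2 * T * (kap * l + 2)) := by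
    refine mul_le_mul_of_nonneg_left (hEr.trans ?_) hlam0
    exact mul_le_mul_of_nonneg_right hJ3 (by positivity)
  have t3 := term3_real (lam := lam) (T := T) k hXexp (by positivity) hbaselog (by linarith) hM
    (by linarith : lam * ((J * (Nat.log 2 J + 1) : ℕ) : ℝ)
      + (16 * T * (13 + 4 * l) + 2) * (2 * L ^ b) + T + 2 ≤ L)
  rw [mul_add] at hmain
  linarith

end Pool.Agent.Helper45_DivisorSieve
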