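import Pool.Agent.Helper45_DivisorSieve.Explicit

/-!
# The asymptotic form of the bound
-/

open Finset Real Filter Asymptotics

namespace Pool.Agent.Helper45_DivisorSieve

/-- `C L^c (log L + 1) ≤ L` for all large `L`, if `c < 1`. -/
lemma eventually_pow_log_le (C c : ℝ) (hc : c < 1) :
    ∀ᶠ L : ℝ in atTop, C * (L ^ c * (Real.log L + 1)) ≤ L := by
  have h1 : Real.log =o[atTop] fun x : ℝ => x ^ (1 - c) := isLittleO_log_rpow_atTop (by linarith)
  have h2 : (fun _ : ℝ => (1 : ℝ)) =o[atTop] fun x : ℝ => x ^ (1 - c) := by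
    rw [isLittleO_const_left]
    right
    exact tendsto_norm_atTop_atTop.comp (tendsto_rpow_atTop (by linarith))
  have h3 : (fun x : ℝ => Real.log x + 1) =o[atTop] fun x : ℝ => x ^ (1 - c) := h1.add h2
  have h4 : (fun x : ℝ => x ^ c * (Real.log x + 1)) =o[atTop] fun x : ℝ => x ^ c * x ^ (1 - c) :=
    (isBigO_refl _ _).mul_isLittleO h3
  have h5 : (fun x : ℝ => C * (x ^ c * (Real.log x + 1))) =o[atTop]
      fun x : ℝ => x ^ c * x ^ (1 - c) := h4.const_mul_left C
  filter_upwards [h5.bound one_pos, eventually_gt_atTop 0] with x hx hx0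
  have h6 : x ^ c * x ^ (1 - c) = x := by
    rw [← Real.rpow_add hx0]
    simp
  rw [h6, one_mul, Real.norm_eq_abs, Real.norm_eq_abs, abs_of_pos hx0] at hx
  exact (le_abs_self _).trans hx

lemma eventually_A2 (b t lam kap : ℝ) (ht0 : 0 ≤ t) (hkap : 0 < kap)
    (hD : lam * kap < t * b) :
    ∀ᶠ l : ℝ in atTop, lam * (kap * l + 2) + 4
      ≤ t * (b * l - 6 - 4 * Real.log (kap * l + 2)) := by
  set D : ℝ := t * b - lam * kap with hDdef
  have hD0 : 0 < D := by linarith
  have htend : Tendsto (fun l : ℝ => kap * l + 2) atTop atTop :=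
    tendsto_atTop_add_const_right _ _ (Tendsto.const_mul_atTop hkap tendsto_id)
  have h1 : (fun l : ℝ => Real.log (kap * l + 2)) =o[atTop] fun l : ℝ => kap * l + 2 :=
    Real.isLittleO_log_id_atTop.comp_tendsto htend
  have heps : 0 < D / (8 * (t + 1) * (kap + 1)) := by positivity
  filter_upwards [h1.bound heps, eventually_ge_atTop (4 * (|lam| + 4 + 8 * (t + 1)) / D + 2),
    eventually_ge_atTop 2] with l h2 h3 h4
  have hpos : 0 < kap * l + 2 := by positivity
  rw [Real.norm_eq_abs, Real.norm_eq_abs, abs_of_pos hpos] at h2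
  have h5 : Real.log (kap * l + 2) ≤ D / (8 * (t + 1) * (kap + 1)) * (kap * l + 2) :=
    (le_abs_self _).trans h2
  have h6 : kap * l + 2 ≤ (kap + 1) * l := by nlinarith
  have h7 : Real.log (kap * l + 2) ≤ D / (8 * (t + 1)) * l := by
    refine h5.trans ?_
    calc D / (8 * (t + 1) * (kap + 1)) * (kap * l + 2)
        ≤ D / (8 * (t + 1) * (kap + 1)) * ((kap + 1) * l) :=
          mul_le_mul_of_nonneg_left h6 heps.le
      _ = D / (8 * (t + 1)) * l := by field_simp
  have h8 : t * (4 * Real.log (kap * l + 2)) ≤ D / 2 * l := by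
    calc t * (4 * Real.log (kap * l + 2)) ≤ t * (4 * (D / (8 * (t + 1)) * l)) := by
          apply mul_le_mul_of_nonneg_left _ ht0
          linarith
      _ = (t / (t + 1)) * (D / 2 * l) := by field_simp; ring
      _ ≤ 1 * (D / 2 * l) := by
          apply mul_le_mul_of_nonneg_right _ (by positivity)
          rw [div_le_one (by linarith)]
          linarith
      _ = D / 2 * l := one_mul _
  have h9 : 4 * (|lam| + 4 + 8 * (t + 1)) ≤ D * l := by
    have : 4 * (|lam| + 4 + 8 * (t + 1)) / D ≤ l := by linarith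
    rw [div_le_iff₀ hD0] at this
    linarith
  have h10 := le_abs_self lam
  have h11 : lam * kap * l + D * l = t * b * l := by rw [hDdef]; ring
  nlinarith

theorem lowSet_main (a : ℝ) (ha0 : 0 < a) (ha1 : a < Real.log 2 / (1 + Real.log 2)) :
    ∀ᶠ X : ℕ in atTop,
      ((lowSet X ((Real.log X) ^ a)).card : ℝ) ≤ X * Real.exp (-(Real.log X) ^ a) := by
  have hlog2 : 0 < Real.log 2 := Real.log_pos one_lt_two
  obtain ⟨kap, hkap⟩ : ∃ kap, kap = a / Real.log 2 := ⟨_, rfl⟩
  have hkap0 : 0 < kap := by rw [hkap]; positivity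
  have hgap : kap < 1 - a := by
    rw [lt_div_iff₀ (by linarith)] at ha1
    rw [hkap, div_lt_iff₀ hlog2]
    linarith
  obtain ⟨δ, hδ⟩ : ∃ δ, δ = (1 - a - kap) / 4 := ⟨_, rfl⟩
  have hδ0 : 0 < δ := by rw [hδ]; linarith
  obtain ⟨b, hb⟩ : ∃ b, b = kap + 3 * δ := ⟨_, rfl⟩
  have hb0 : 0 < b := by rw [hb]; positivity
  have hab : a + b < 1 := by rw [hb, hδ]; linarith
  have hb1 : b ≤ 1 := by linarith
  obtain ⟨t, ht⟩ : ∃ t, t = δ / (kap + 2 * δ) := ⟨_, rfl⟩
  have hden : 0 < kap + 2 * δ := by positivity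
  have ht0 : 0 < t := by rw [ht]; positivity
  have ht1 : t < 1 := by
    rw [ht, div_lt_one hden]
    linarith
  have h1t : 1 - t = (kap + δ) / (kap + 2 * δ) := by
    rw [ht]; field_simp; ring
  obtain ⟨lam, hlam⟩ : ∃ lam, lam = -Real.log (1 - t) := ⟨_, rfl⟩
  have hlamexp : Real.exp (-lam) = 1 - t := by
    rw [hlam, neg_neg, Real.exp_log (by linarith)]
  have hlam0 : 0 ≤ lam := by
    rw [hlam]
    have := Real.log_nonpos (by linarith : 0 ≤ 1 - t) (by linarith)
    linarith
  -- `lam ≤ t / (1 - t)`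
  have hlamle : lam ≤ t / (1 - t) := by
    have h1 : 0 < 1 - t := by linarith
    have h2 := Real.log_le_sub_one_of_pos (inv_pos.mpr h1)
    rw [Real.log_inv] at h2
    rw [hlam]
    refine h2.trans (le_of_eq ?_)
    field_simp
    ring
  have hD : lam * kap < t * b := by
    have h1 : lam * kap ≤ t / (1 - t) * kap := mul_le_mul_of_nonneg_right hlamle hkap0.le
    have h2 : t / (1 - t) * kap = t * (kap * (kap + 2 * δ) / (kap + δ)) := by
      rw [h1t]; field_simp
    have h3 : kap * (kap + 2 * δ) / (kap + δ) < b := by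
      rw [div_lt_iff₀ (by positivity), hb]
      nlinarith
    have h4 : t * (kap * (kap + 2 * δ) / (kap + δ)) < t * b := mul_lt_mul_of_pos_left h3 ht0
    linarith
  -- the conditions on `L`
  have hcond : ∀ᶠ L : ℝ in atTop, 1 ≤ L ∧
      (lam * (kap * Real.log L + 2) + 4
        ≤ t * (b * Real.log L - 6 - 4 * Real.log (kap * Real.log L + 2))) ∧
      (lam * (2 * L ^ a * (kap * Real.log L + 2))
        + (16 * L ^ a * (13 + 4 * Real.log L) + 2) * (2 * L ^ b) + L ^ a + 2 ≤ L) ∧
      (Real.log 5 + a * Real.log L + L ^ b ≤ 2 * L ^ b) ∧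
      (Real.log 6 + a * Real.log L + L ^ a ≤ L) := by
    have e2 := Real.tendsto_log_atTop.eventually (eventually_A2 b t lam kap ht0.le hkap0 hD)
    have e3a := eventually_pow_log_le (5 * (2 * lam * (kap + 2))) a (by linarith)
    have e3b := eventually_pow_log_le (5 * (32 * 17)) (a + b) hab
    have e3c := eventually_pow_log_le (5 * 4) b (by linarith)
    have e3d := eventually_pow_log_le 5 a (by linarith)
    have e3e : ∀ᶠ L : ℝ in atTop, 5 * 2 ≤ L := eventually_ge_atTop _
    have e4 : ∀ᶠ L : ℝ in atTop, Real.log 5 + a * Real.log L ≤ L ^ b := by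
      have h1 : (fun L : ℝ => Real.log 5 + a * Real.log L) =o[atTop] fun L : ℝ => L ^ b := by
        apply IsLittleO.add
        · rw [isLittleO_const_left]
          right
          exact tendsto_norm_atTop_atTop.comp (tendsto_rpow_atTop hb0)
        · exact (isLittleO_log_rpow_atTop hb0).const_mul_left a
      filter_upwards [h1.bound one_pos, eventually_gt_atTop 0] with x hx hx0
      have hpos : 0 < x ^ b := Real.rpow_pos_of_pos hx0 b
      rw [one_mul, Real.norm_eq_abs, Real.norm_eq_abs, abs_of_pos hpos] at hx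
      exact (le_abs_self _).trans hx
    have e5a : ∀ᶠ L : ℝ in atTop, 3 * Real.log 6 ≤ L := eventually_ge_atTop _
    have e5b := eventually_pow_log_le (3 * a) 0 (by norm_num)
    filter_upwards [eventually_ge_atTop 1, e2, e3a, e3b, e3c, e3d, e3e, e4, e5a, e5b]
      with L hL g2 g3a g3b g3c g3d g3e g4 g5a g5b
    have hl0 : 0 ≤ Real.log L := Real.log_nonneg hL
    have hLa : 1 ≤ L ^ a := Real.one_le_rpow hL ha0.le
    have hLb : 1 ≤ L ^ b := Real.one_le_rpow hL hb0.le
    have hLab : L ^ (a + b) = L ^ a * L ^ b := Real.rpow_add (by linarith) a b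
    have hL0' : L ^ (0 : ℝ) = 1 := Real.rpow_zero L
    refine ⟨hL, g2, ?_, by linarith, ?_⟩
    · have i1 : lam * (2 * L ^ a * (kap * Real.log L + 2))
          ≤ (2 * lam * (kap + 2)) * (L ^ a * (Real.log L + 1)) := by
        have : kap * Real.log L + 2 ≤ (kap + 2) * (Real.log L + 1) := by
          have := mul_nonneg hkap0.le hl0
          linarith
        calc lam * (2 * L ^ a * (kap * Real.log L + 2))
            ≤ lam * (2 * L ^ a * ((kap + 2) * (Real.log L + 1))) := by
              apply mul_le_mul_of_nonneg_left _ hlam0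
              apply mul_le_mul_of_nonneg_left this (by linarith)
          _ = _ := by ring
      have i2 : (16 * L ^ a * (13 + 4 * Real.log L) + 2) * (2 * L ^ b)
          ≤ (32 * 17) * (L ^ (a + b) * (Real.log L + 1)) + 4 * (L ^ b * (Real.log L + 1)) := by
        have j1 : 13 + 4 * Real.log L ≤ 17 * (Real.log L + 1) := by linarith
        have j2 : L ^ b ≤ L ^ b * (Real.log L + 1) :=
          le_mul_of_one_le_right (by linarith) (by linarith)
        have j3 : L ^ a * L ^ b * (13 + 4 * Real.log L)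
            ≤ L ^ a * L ^ b * (17 * (Real.log L + 1)) :=
          mul_le_mul_of_nonneg_left j1 (by positivity)
        rw [hLab]
        calc (16 * L ^ a * (13 + 4 * Real.log L) + 2) * (2 * L ^ b)
            = 32 * (L ^ a * L ^ b * (13 + 4 * Real.log L)) + 4 * L ^ b := by ring
          _ ≤ 32 * (L ^ a * L ^ b * (17 * (Real.log L + 1))) + 4 * (L ^ b * (Real.log L + 1)) := by
              linarith
          _ = _ := by ring
      have i3 : L ^ a ≤ L ^ a * (Real.log L + 1) :=
        le_mul_of_one_le_right (by linarith) (by linarith)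
      linarith
    · rw [hL0'] at g5b
      have i3 : L ^ a ≤ L ^ a * (Real.log L + 1) :=
        le_mul_of_one_le_right (by linarith) (by linarith)
      have i4 : 0 ≤ L ^ a * (Real.log L + 1) := by positivity
      have i5 : a * Real.log L ≤ a * (Real.log L + 1) :=
        mul_le_mul_of_nonneg_left (by linarith) ha0.le
      linarith
  have hXlog : Tendsto (fun X : ℕ => Real.log X) atTop atTop :=
    Real.tendsto_log_atTop.comp tendsto_natCast_atTop_atTop
  filter_upwards [hXlog.eventually hcond, eventually_ge_atTop 1] with X hX hX1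
  obtain ⟨c1, c2, c3, c4, c5⟩ := hX
  exact lowSet_card_le_exp X a b t lam kap ha0 hb0 hb1 ht0.le ht1 hlamexp hlam0 hkap hX1 c1
    c2 c3 c4 c5

end Pool.Agent.Helper45_DivisorSieve
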