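import Pool.Agent.Helper45_DivisorSieve.Count

/-!
# From the divisor condition to the incidence count
-/

open Finset

namespace Pool.Agent.Helper45_DivisorSieve

lemma two_pow_card_primeFactors_le {m : ℕ} (hm : m ≠ 0) :
    2 ^ m.primeFactors.card ≤ m.divisors.card := by
  rw [Nat.card_divisors hm, ← prod_const]
  apply prod_le_prod' 
  intro p hp
  have hp' := Nat.mem_primeFactors.mp hp
  have : 1 ≤ m.factorization p := by
    rw [← hp'.1.dvd_iff_one_le_factorization hm]
    exact hp'.2.1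
  omega

lemma incCount_le {J n : ℕ} {P : Finset ℕ} (hP : ∀ p ∈ P, p.Prime ∧ J < p) (hJ : 1 ≤ J)
    (hJn : J < n) (h : ∀ j ∈ Icc 1 J, (n - j).divisors.card ≤ 2 * J) :
    incCount J P n ≤ J * (Nat.log 2 J + 1) := by
  classical
  have hsub : {p ∈ P | Inc J n p} ⊆ (Icc 1 J).biUnion (fun j => (n - j).primeFactors) := by
    intro p hp
    rw [mem_filter] at hp
    rw [mem_biUnion]
    refine ⟨n % p, mem_Icc.mpr hp.2, ?_⟩
    rw [Nat.mem_primeFactors]
    have h1 : n % p ≤ J := hp.2.2
    refine ⟨(hP p hp.1).1, Nat.dvd_sub_mod n, ?_⟩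
    omega
  have hcard : ∀ j ∈ Icc 1 J, (n - j).primeFactors.card ≤ Nat.log 2 J + 1 := by
    intro j hj
    have hj' := mem_Icc.mp hj
    have h1 : n - j ≠ 0 := by omega
    have h2 := (two_pow_card_primeFactors_le h1).trans (h j hj)
    have h3 : Nat.log 2 (2 * J) = Nat.log 2 J + 1 := by
      rw [mul_comm, Nat.log_mul_base (by norm_num) (by omega)]
    rw [← h3]
    exact Nat.le_log_of_pow_le (by norm_num) h2
  calc incCount J P n ≤ ((Icc 1 J).biUnion (fun j => (n - j).primeFactors)).card :=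
        card_le_card hsub
    _ ≤ ∑ j ∈ Icc 1 J, (n - j).primeFactors.card := card_biUnion_le
    _ ≤ ∑ j ∈ Icc 1 J, (Nat.log 2 J + 1) := sum_le_sum hcard
    _ = J * (Nat.log 2 J + 1) := by
      rw [sum_const, Nat.card_Icc, smul_eq_mul, Nat.add_sub_cancel]

end Pool.Agent.Helper45_DivisorSieve
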